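import Pool.Agent.N850.Imb.Final

/-!
# The imbalance multiset of a graph without balanced edges is graphic

Proof.  Erdős–Gallai: it suffices to show, for every set `S` of `k` edges,
`∑_{e ∈ S} imb e ≤ k (k - 1) + ∑_{e ∉ S} min (imb e) k`  (the sum of all imbalances is congruent to
`∑ (deg v)² ≡ ∑ deg v` modulo 2, hence even).  Let `u` be a vertex of maximal degree `D` among the
ends of the edges in `S`; every edge of `S` has imbalance at most `D - 1`, so one needs
`∑_{e ∉ S} min (imb e) k ≥ k (D - k)` when `D > k`.  Let `s` be the number of edges of `S` at `u`; `u` has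
`D - s` further neighbours. Such a neighbour `v` with `imb uv ≥ k` contributes `k`; let `T` be the set
of the others, `q = |T|`.  For `v ∈ T` one has `imb uv + deg v ≥ D`, and at least
`∑_{v ∈ T} (deg v - 1) - q (q - 1) / 2` edges avoid `u` and meet `T`, all but at most `k - s` of which lie
outside `S`, and each of these contributes at least 1.  Altogether at least
`k (D - s - q) + q (D - 1) - q (q - 1) / 2 - (k - s)`, which is at least `k (D - k)`.
-/

set_option autoImplicit false

namespace Pool.Agent.Results.MP_440a65_co.ImbalanceGraphic

/-- Let `G` be a finite simple graph in which every edge joins two vertices of different degrees.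
Then there is a simple graph `H` on the set of the edges of `G` in which every edge `uv` of `G` has
exactly `|deg u - deg v|` neighbours; so the multiset of the imbalances of `G` is graphic. -/
theorem result {V : Type*} [Fintype V] [DecidableEq V] (G : SimpleGraph V) [DecidableRel G.Adj]
    (hG : ∀ u v, G.Adj u v → G.degree u ≠ G.degree v) :
    ∃ H : SimpleGraph G.edgeSet, ∀ (u v : V) (huv : G.Adj u v),
      ((H.neighborSet ⟨s(u, v), huv⟩).ncard : ℤ) = |(G.degree u : ℤ) - G.degree v| := by
  obtain ⟨H, hH⟩ := Pool.Agent.N850.Imb.final G hG
  refine ⟨H, fun u v huv => ?_⟩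
  rw [hH ⟨s(u, v), huv⟩, Pool.Agent.N850.Imb.imb_mk]
  rcases le_total (G.degree u) (G.degree v) with h | h
  · rw [abs_of_nonpos (by have : (G.degree u : ℤ) ≤ G.degree v := by exact_mod_cast h
                          linarith)]
    omega
  · rw [abs_of_nonneg (by have : (G.degree v : ℤ) ≤ G.degree u := by exact_mod_cast h
                          linarith)]
    omega

end Pool.Agent.Results.MP_440a65_co.ImbalanceGraphic
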